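import Mathlib

set_option autoImplicit false

/-! The largest edge-connectivity of a subgraph forced by average edge-connectivity at least `l`
is `⌊l/2⌋ + 1`. -/

namespace Pool.Agent.Results.MP_3eb4be_co.AvgEdgeConn

open SimpleGraph Finset

/-- `G` contains `k` pairwise edge-disjoint paths from `u` to `v`. -/
def HasDisjointPaths {V : Type} (G : SimpleGraph V) (u v : V) (k : ℕ) : Prop :=
  ∃ p : Fin k → G.Path u v, ∀ i j, i ≠ j → List.Disjoint (p i).1.edges (p j).1.edges

/-- Local edge-connectivity: the maximum number of pairwise edge-disjoint `u`-`v` paths. -/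
noncomputable def lam {V : Type} (G : SimpleGraph V) (u v : V) : ℕ :=
  sSup {k | HasDisjointPaths G u v k}

theorem HasDisjointPaths.symm {V : Type} {G : SimpleGraph V} {u v : V} {k : ℕ}
    (h : HasDisjointPaths G u v k) : HasDisjointPaths G v u k := by
  obtain ⟨p, hp⟩ := h
  refine ⟨fun i => (p i).reverse, fun i j hij => ?_⟩
  have := hp i j hij
  simpa [SimpleGraph.Path.reverse, List.disjoint_reverse_left, List.disjoint_reverse_right]
    using this

theorem lam_comm {V : Type} (G : SimpleGraph V) (u v : V) : lam G u v = lam G v u := by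
  unfold lam
  congr 1
  ext k
  exact ⟨fun h => HasDisjointPaths.symm h, fun h => HasDisjointPaths.symm h⟩

/-- `lam` as a function of the unordered pair. -/
noncomputable def lamE {V : Type} (G : SimpleGraph V) : Sym2 V → ℕ :=
  Sym2.lift ⟨lam G, lam_comm G⟩

/-- Average edge-connectivity: the sum of `lam` over all unordered pairs of distinct vertices,
divided by `n (n - 1) / 2`. -/
noncomputable def avgLam {V : Type} [Fintype V] (G : SimpleGraph V) : ℚ :=
  open Classical in
  (∑ e ∈ (Finset.univ : Finset (Sym2 V)).filter (fun e => ¬ e.IsDiag), (lamE G e : ℚ)) /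
    ((Fintype.card V : ℚ) * ((Fintype.card V : ℚ) - 1) / 2)

/-- `G` contains a `t`-edge-connected subgraph (with at least two vertices). -/
def ContainsEdgeConnected {V : Type} (G : SimpleGraph V) (t : ℕ) : Prop :=
  ∃ H : G.Subgraph, H.verts.Nontrivial ∧ H.coe.IsEdgeConnected t

/-! ### Basic facts -/

theorem snd_mem_edges {V : Type} {G : SimpleGraph V} {u v : V} (p : G.Walk u v) (h : u ≠ v) :
    s(u, p.snd) ∈ p.edges := by
  cases p with
  | nil => exact absurd rfl h
  | cons hadj q => simp

theorem card_le_degree {V : Type} {G : SimpleGraph V} {u v : V} {k : ℕ} (huv : u ≠ v)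
    [Fintype (G.neighborSet u)] (h : HasDisjointPaths G u v k) : k ≤ G.degree u := by
  classical
  obtain ⟨p, hp⟩ := h
  have hinj : Function.Injective (fun i : Fin k => (p i).1.snd) := by
    intro i j hij
    by_contra hne
    have h1 := snd_mem_edges (p i).1 huv
    have h2 := snd_mem_edges (p j).1 huv
    simp only at hij
    rw [← hij] at h2
    exact hp i j hne h1 h2
  have hmem : ∀ i : Fin k, (p i).1.snd ∈ G.neighborFinset u := by
    intro i
    rw [mem_neighborFinset]
    have := snd_mem_edges (p i).1 huv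
    exact (p i).1.adj_of_mem_edges this
  have := Finset.card_le_card_of_injOn (s := (Finset.univ : Finset (Fin k)))
    (t := G.neighborFinset u) (fun i => (p i).1.snd) (fun i _ => hmem i) (hinj.injOn)
  simpa using this

theorem bdd {V : Type} [Fintype V] {G : SimpleGraph V} {u v : V} (huv : u ≠ v) :
    BddAbove {k | HasDisjointPaths G u v k} := by
  classical
  exact ⟨G.degree u, fun k hk => card_le_degree huv hk⟩

theorem lam_le_degree {V : Type} [Fintype V] {G : SimpleGraph V} {u v : V} (huv : u ≠ v)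
    [Fintype (G.neighborSet u)] : lam G u v ≤ G.degree u := by
  unfold lam
  refine csSup_le ⟨0, ⟨fun i => i.elim0, fun i => i.elim0⟩⟩ fun k hk => card_le_degree huv hk

theorem le_lam {V : Type} [Fintype V] {G : SimpleGraph V} {u v : V} {k : ℕ} (huv : u ≠ v)
    (h : HasDisjointPaths G u v k) : k ≤ lam G u v :=
  le_csSup (bdd huv) h

open Classical in
theorem sum_offDiag {V : Type} [Fintype V] (G : SimpleGraph V) :
    (∑ p ∈ (Finset.univ : Finset V).offDiag, (lam G p.1 p.2 : ℚ))
      = 2 * ∑ e ∈ (Finset.univ : Finset (Sym2 V)).filter (fun e => ¬ e.IsDiag), (lamE G e : ℚ) := by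
  have hmaps : ∀ p ∈ (Finset.univ : Finset V).offDiag,
      s(p.1, p.2) ∈ (Finset.univ : Finset (Sym2 V)).filter (fun e => ¬ e.IsDiag) := by
    intro p hp
    simp only [Finset.mem_offDiag, Finset.mem_univ, true_and] at hp
    simp [hp]
  rw [← Finset.sum_fiberwise_of_maps_to hmaps, Finset.mul_sum]
  refine Finset.sum_congr rfl fun e he => ?_
  induction e with
  | h a b =>
    simp only [Finset.mem_filter, Finset.mem_univ, true_and, Sym2.mk_isDiag_iff] at he
    have hfib : (Finset.univ : Finset V).offDiag.filter (fun p => s(p.1, p.2) = s(a, b))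
        = {(a, b), (b, a)} := by
      ext ⟨x, y⟩
      simp only [Finset.mem_filter, Finset.mem_offDiag, Finset.mem_univ, true_and, Sym2.eq_iff,
        Finset.mem_insert, Finset.mem_singleton, Prod.mk.injEq]
      constructor
      · rintro ⟨_, h⟩; exact h
      · rintro (⟨rfl, rfl⟩ | ⟨rfl, rfl⟩)
        · exact ⟨he, Or.inl ⟨rfl, rfl⟩⟩
        · exact ⟨fun h => he h.symm, Or.inr ⟨rfl, rfl⟩⟩
    rw [hfib, Finset.sum_pair (by simp [he])]
    simp only [lamE, Sym2.lift_mk]
    rw [lam_comm G b a]
    ring

/-! ### Edge bound for graphs without a `(c+1)`-edge-connected subgraph -/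

open Classical in
/-- Edges of `G` inside `A`. -/
noncomputable def eIn {V : Type} [Fintype V] (G : SimpleGraph V) (A : Finset V) :
    Finset (Sym2 V) :=
  (Finset.univ : Finset (Sym2 V)).filter (fun e => e ∈ G.edgeSet ∧ ∀ v ∈ e, v ∈ A)

open Classical in
theorem eIn_bound {V : Type} [Fintype V] (G : SimpleGraph V) (c : ℕ)
    (hG : ¬ ContainsEdgeConnected G (c + 1)) :
    ∀ (n : ℕ) (A : Finset V), A.card = n → A.Nonempty → (eIn G A).card + c ≤ c * A.card := by
  intro n
  induction n using Nat.strong_induction_on with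
  | _ n ih =>
    intro A hAn hA
    by_cases h1 : A.card = 1
    · obtain ⟨a, rfl⟩ := Finset.card_eq_one.mp h1
      have : eIn G {a} = ∅ := by
        rw [Finset.eq_empty_iff_forall_notMem]
        intro e he
        simp only [eIn, Finset.mem_filter, Finset.mem_univ, true_and, Finset.mem_singleton] at he
        induction e with
        | h x y =>
          have hx := he.2 x (by simp)
          have hy := he.2 y (by simp)
          subst hx
          subst hy
          exact G.loopless.irrefl _ he.1
      rw [this]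
      simp
    · have hcard : 2 ≤ A.card := by
        have := Finset.card_pos.mpr hA
        omega
      set H : G.Subgraph := (⊤ : G.Subgraph).induce (A : Set V) with hH
      have hverts : H.verts = (A : Set V) := by simp [hH]
      have hnt : H.verts.Nontrivial := by
        rw [hverts]
        exact_mod_cast Finset.one_lt_card_iff_nontrivial.mp (by omega)
      have hnot : ¬ H.coe.IsEdgeConnected (c + 1) := fun h => hG ⟨H, hnt, h⟩
      unfold SimpleGraph.IsEdgeConnected SimpleGraph.IsEdgeReachable at hnot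
      push Not at hnot
      obtain ⟨u, v, s, hs, hnr⟩ := hnot
      set K := H.coe.deleteEdges s with hK
      -- the reachable part
      set B : Finset V := A.filter (fun x => ∃ hx : x ∈ H.verts, K.Reachable u ⟨x, hx⟩) with hB
      set C : Finset V := A.filter (fun x => ¬ ∃ hx : x ∈ H.verts, K.Reachable u ⟨x, hx⟩) with hC
      have hmemA : ∀ x, x ∈ H.verts → x ∈ A := by
        intro x hx
        rw [hverts] at hx
        exact_mod_cast hx
      have huA : (u : V) ∈ A := hmemA _ u.2
      have hvA : (v : V) ∈ A := hmemA _ v.2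
      have huB : (u : V) ∈ B := by
        rw [hB, Finset.mem_filter]
        exact ⟨huA, u.2, SimpleGraph.Reachable.refl _⟩
      have hvC : (v : V) ∈ C := by
        rw [hC, Finset.mem_filter]
        refine ⟨hvA, ?_⟩
        rintro ⟨hx, hr⟩
        exact hnr hr
      have hBC : B.card + C.card = A.card := by
        rw [hB, hC]
        exact Finset.card_filter_add_card_filter_not _
      have hBpos : 0 < B.card := Finset.card_pos.mpr ⟨_, huB⟩
      have hCpos : 0 < C.card := Finset.card_pos.mpr ⟨_, hvC⟩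
      have ihB := ih B.card (by omega) B rfl ⟨_, huB⟩
      have ihC := ih C.card (by omega) C rfl ⟨_, hvC⟩
      have hsfin : s.Finite := Set.toFinite s
      have hscard : s.ncard ≤ c := by
        have h2 : s.encard < ((c + 1 : ℕ) : ℕ∞) := by exact_mod_cast hs
        rw [← hsfin.cast_ncard_eq] at h2
        have h3 : s.ncard < c + 1 := by exact_mod_cast h2
        omega
      set I : Finset (Sym2 V) := (s.toFinset).image (Sym2.map (Subtype.val)) with hI
      have hIcard : I.card ≤ c := by
        refine (Finset.card_image_le).trans ?_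
        rw [← Set.ncard_eq_toFinset_card']
        exact hscard
      have hsub : eIn G A ⊆ eIn G B ∪ eIn G C ∪ I := by
        intro e he
        simp only [eIn, Finset.mem_filter, Finset.mem_univ, true_and] at he
        obtain ⟨heG, heA⟩ := he
        induction e with
        | h x y =>
          have hxA : x ∈ A := heA x (by simp)
          have hyA : y ∈ A := heA y (by simp)
          have hxV : x ∈ H.verts := by rw [hverts]; exact_mod_cast hxA
          have hyV : y ∈ H.verts := by rw [hverts]; exact_mod_cast hyA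
          have hadj : G.Adj x y := heG
          have hHadj : H.coe.Adj ⟨x, hxV⟩ ⟨y, hyV⟩ := by
            simp only [SimpleGraph.Subgraph.coe_adj, hH, SimpleGraph.Subgraph.induce_adj,
              SimpleGraph.Subgraph.top_adj]
            exact ⟨by exact_mod_cast hxA, by exact_mod_cast hyA, hadj⟩
          by_cases hse : s(⟨x, hxV⟩, ⟨y, hyV⟩) ∈ s
          · refine Finset.mem_union_right _ ?_
            rw [hI, Finset.mem_image]
            exact ⟨_, by simpa using hse, by simp⟩
          · have hKadj : K.Adj ⟨x, hxV⟩ ⟨y, hyV⟩ := by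
              rw [hK, SimpleGraph.deleteEdges_adj]
              exact ⟨hHadj, hse⟩
            refine Finset.mem_union_left _ ?_
            by_cases hr : K.Reachable u ⟨x, hxV⟩
            · refine Finset.mem_union_left _ ?_
              have hr2 : K.Reachable u ⟨y, hyV⟩ := hr.trans hKadj.reachable
              simp only [eIn, Finset.mem_filter, Finset.mem_univ, true_and]
              refine ⟨heG, ?_⟩
              intro w hw
              rw [Sym2.mem_iff] at hw
              rcases hw with rfl | rfl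
              · rw [hB, Finset.mem_filter]; exact ⟨hxA, hxV, hr⟩
              · rw [hB, Finset.mem_filter]; exact ⟨hyA, hyV, hr2⟩
            · refine Finset.mem_union_right _ ?_
              have hr2 : ¬ K.Reachable u ⟨y, hyV⟩ := fun h => hr (h.trans hKadj.symm.reachable)
              simp only [eIn, Finset.mem_filter, Finset.mem_univ, true_and]
              refine ⟨heG, ?_⟩
              intro w hw
              rw [Sym2.mem_iff] at hw
              rcases hw with rfl | rfl
              · rw [hC, Finset.mem_filter]; exact ⟨hxA, fun ⟨_, h⟩ => hr h⟩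
              · rw [hC, Finset.mem_filter]; exact ⟨hyA, fun ⟨_, h⟩ => hr2 h⟩
      have hle : (eIn G A).card ≤ (eIn G B).card + (eIn G C).card + c := by
        refine (Finset.card_le_card hsub).trans ((Finset.card_union_le _ _).trans ?_)
        have := Finset.card_union_le (eIn G B) (eIn G C)
        omega
      rw [← hBC]
      rw [Nat.mul_add]
      omega

open Classical in
theorem edge_bound {V : Type} [Fintype V] (G : SimpleGraph V) (c : ℕ) (hV : 1 ≤ Fintype.card V)
    (hG : ¬ ContainsEdgeConnected G (c + 1)) :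
    G.edgeFinset.card + c ≤ c * Fintype.card V := by
  have h := eIn_bound G c hG _ Finset.univ rfl (Finset.card_pos.mp (by rwa [Finset.card_univ]))
  have he : eIn G Finset.univ = G.edgeFinset := by
    ext e
    simp [eIn]
  rw [he, Finset.card_univ] at h
  exact h

open Classical in
/-- Average edge-connectivity is at most average degree. -/
theorem avg_le {V : Type} [Fintype V] (G : SimpleGraph V) (l : ℕ) (hV : 2 ≤ Fintype.card V)
    (h : (l : ℚ) ≤ avgLam G) : l * Fintype.card V ≤ 2 * G.edgeFinset.card := by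
  set n := Fintype.card V with hn
  have hn2 : (2 : ℚ) ≤ (n : ℚ) := by exact_mod_cast hV
  have hsum := sum_offDiag G
  have h1 : (∑ p ∈ (Finset.univ : Finset V).offDiag, (lam G p.1 p.2 : ℚ))
      ≤ ∑ p ∈ (Finset.univ : Finset V).offDiag, ((G.degree p.1 : ℚ)) := by
    refine Finset.sum_le_sum fun p hp => ?_
    simp only [Finset.mem_offDiag, Finset.mem_univ, true_and] at hp
    exact_mod_cast lam_le_degree hp
  have h2 : ∑ p ∈ (Finset.univ : Finset V).offDiag, ((G.degree p.1 : ℚ))
      = ((n : ℚ) - 1) * (2 * G.edgeFinset.card) := by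
    have h3 : ∑ p ∈ (Finset.univ : Finset V).offDiag, ((G.degree p.1 : ℚ))
        = ∑ u : V, ∑ v ∈ Finset.univ.erase u, (G.degree u : ℚ) := by
      rw [Finset.sum_sigma']
      refine Finset.sum_bij' (fun p _ => ⟨p.1, p.2⟩) (fun q _ => (q.1, q.2)) ?_ ?_ ?_ ?_ ?_
      · intro p hp
        simp only [Finset.mem_offDiag, Finset.mem_univ, true_and] at hp
        simp [Ne.symm hp]
      · intro q hq
        simp only [Finset.mem_sigma, Finset.mem_univ, Finset.mem_erase, true_and] at hq
        simp [Ne.symm hq.1]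
      · intro p _; rfl
      · intro q _; rfl
      · intro p _; rfl
    rw [h3]
    simp only [Finset.sum_const, Finset.card_erase_of_mem (Finset.mem_univ _), Finset.card_univ,
      nsmul_eq_mul]
    rw [← Finset.mul_sum]
    have h4 : (∑ u : V, (G.degree u : ℚ)) = 2 * G.edgeFinset.card := by
      exact_mod_cast G.sum_degrees_eq_twice_card_edges
    rw [h4, ← hn]
    push_cast [Nat.cast_sub (show 1 ≤ n by omega)]
    ring
  unfold avgLam at h
  rw [← hn] at h
  have hpos : (0 : ℚ) < (n : ℚ) * ((n : ℚ) - 1) / 2 := by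
    have : (0 : ℚ) < (n : ℚ) - 1 := by linarith
    positivity
  rw [le_div_iff₀ hpos] at h
  have h5 : (l : ℚ) * ((n : ℚ) * ((n : ℚ) - 1)) ≤ ((n : ℚ) - 1) * (2 * G.edgeFinset.card) := by
    rw [← h2]
    refine le_trans ?_ h1
    rw [hsum]
    linarith
  have h6 : (0 : ℚ) < (n : ℚ) - 1 := by linarith
  have h7 : (l : ℚ) * n ≤ 2 * G.edgeFinset.card := by
    have : ((n : ℚ) - 1) * ((l : ℚ) * n) ≤ ((n : ℚ) - 1) * (2 * G.edgeFinset.card) := by
      linarith
    exact le_of_mul_le_mul_left this h6
  exact_mod_cast h7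

theorem lower (l : ℕ) (hl : 1 ≤ l) {V : Type} [Fintype V] (G : SimpleGraph V)
    (hV : 2 ≤ Fintype.card V) (h : (l : ℚ) ≤ avgLam G) : ContainsEdgeConnected G (l / 2 + 1) := by
  classical
  by_contra hG
  have h1 := edge_bound G (l / 2) (by omega) hG
  have h2 := avg_le G l hV h
  set n := Fintype.card V
  set c := l / 2 with hc
  have h3 : 2 * (c * n) ≤ l * n := by
    have : 2 * c ≤ l := by omega
    calc 2 * (c * n) = (2 * c) * n := by ring
      _ ≤ l * n := Nat.mul_le_mul_right _ this
  have h4 : c = 0 := by omega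
  rw [h4] at h1
  simp only [Nat.add_zero, Nat.zero_mul, Nat.le_zero] at h1
  rw [h1] at h2
  simp only [Nat.mul_zero, Nat.le_zero, mul_eq_zero] at h2
  omega

/-! ### Graphs without a `(k+1)`-edge-connected subgraph -/

open Classical in
theorem degenerate {V : Type} [Fintype V] (G : SimpleGraph V) (h : V → ℕ) (k : ℕ)
    (hk : ∀ v, ((Finset.univ : Finset V).filter (fun w => G.Adj v w ∧ h w ≤ h v)).card ≤ k) :
    ¬ ContainsEdgeConnected G (k + 1) := by
  rintro ⟨H, hnt, hH⟩
  have : Nontrivial H.verts := Set.nontrivial_coe_sort.mpr hnt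
  obtain ⟨v, hv, hmax⟩ := Set.exists_max_image H.verts h (Set.toFinite _) hnt.nonempty
  have h1 := SimpleGraph.IsEdgeConnected.le_degree (u := (⟨v, hv⟩ : H.verts)) hH
  have h2 : H.coe.degree ⟨v, hv⟩ ≤ k := by
    refine le_trans ?_ (hk v)
    rw [← SimpleGraph.card_neighborFinset_eq_degree]
    refine Finset.card_le_card_of_injOn (fun w => (w : V)) ?_ (Subtype.val_injective.injOn)
    intro w hw
    simp only [Finset.mem_coe, SimpleGraph.mem_neighborFinset, SimpleGraph.Subgraph.coe_adj] at hw
    simp only [Finset.coe_filter, Finset.mem_univ, true_and, Set.mem_ofPred_eq]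
    exact ⟨H.adj_sub hw, hmax _ w.2⟩
  omega

theorem disjoint_paths_of_family {V ι : Type} [Fintype ι] {G : SimpleGraph V} {u v : V}
    (K : ι → SimpleGraph V) (hle : ∀ c, K c ≤ G)
    (hdis : ∀ c c' e, e ∈ (K c).edgeSet → e ∈ (K c').edgeSet → c = c')
    (hreach : ∀ c, (K c).Reachable u v) : HasDisjointPaths G u v (Fintype.card ι) := by
  classical
  have hp : ∀ c, ∃ p : G.Path u v, ∀ e ∈ p.1.edges, e ∈ (K c).edgeSet := by
    intro c
    obtain ⟨q, hq⟩ := (hreach c).exists_isPath
    refine ⟨⟨q.mapLe (hle c), ?_⟩, ?_⟩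
    · exact (SimpleGraph.Walk.isPath_mapLe (hle c)).mpr hq
    · intro e he
      simp only [SimpleGraph.Walk.edges_mapLe_eq_edges] at he
      exact q.edges_subset_edgeSet he
  choose p hp using hp
  refine ⟨fun i => p ((Fintype.equivFin ι).symm i), fun i j hij => ?_⟩
  intro e he he'
  have := hdis _ _ e (hp _ e he) (hp _ e he')
  exact hij ((Fintype.equivFin ι).symm.injective this)

/-- The layered graph: `m` layers, each a copy of `ZMod k`; consecutive layers are completely
joined. -/
def layered (m k : ℕ) : SimpleGraph (Fin m × ZMod k) where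
  Adj p q := (p.1 : ℕ) + 1 = q.1 ∨ (q.1 : ℕ) + 1 = p.1
  symm := ⟨fun _ _ h => h.symm⟩
  loopless := ⟨fun p h => by rcases h with h | h <;> omega⟩

/-- The colour of the edge from `(s, x)` to `(s+1, y)`. -/
def col (k i j : ℕ) (a b : ZMod k) (s : ℕ) (x y : ZMod k) : Option (Bool × ZMod k) :=
  if s + 1 = i then (if y = a ∨ y = a + 1 then some (true, x - s) else none)
  else if s = i then
    (if x = a then some (false, y) else if x = a + 1 then some (true, y - (s + 1)) else none)
  else if i < s ∧ s + 1 < j then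
    (if y = x then some (false, x) else if y = x + 1 then some (true, x - s) else none)
  else if s + 1 = j then
    (if y = b then some (false, x) else if y = b + 1 then some (true, x - s) else none)
  else if s = j then (if x = b ∨ x = b + 1 then some (true, y - (s + 1)) else none)
  else none

/-- The edges of colour `c`. -/
def colGraph (m k i j : ℕ) (a b : ZMod k) (c : Bool × ZMod k) : SimpleGraph (Fin m × ZMod k) where
  Adj p q := ((p.1 : ℕ) + 1 = q.1 ∧ col k i j a b p.1 p.2 q.2 = some c) ∨
    ((q.1 : ℕ) + 1 = p.1 ∧ col k i j a b q.1 q.2 p.2 = some c)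
  symm := ⟨fun _ _ h => h.symm⟩
  loopless := ⟨fun p h => by rcases h with h | h <;> omega⟩

theorem colGraph_le (m k i j : ℕ) (a b : ZMod k) (c : Bool × ZMod k) :
    colGraph m k i j a b c ≤ layered m k := by
  intro p q h
  rcases h with h | h
  · exact Or.inl h.1
  · exact Or.inr h.1

theorem colGraph_disjoint (m k i j : ℕ) (a b : ZMod k) (c c' : Bool × ZMod k)
    (e : Sym2 (Fin m × ZMod k)) (h : e ∈ (colGraph m k i j a b c).edgeSet)
    (h' : e ∈ (colGraph m k i j a b c').edgeSet) : c = c' := by
  induction e with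
  | h p q =>
    rw [SimpleGraph.mem_edgeSet] at h h'
    rcases h with h | h <;> rcases h' with h' | h'
    · have := h.2.symm.trans h'.2
      simpa using this
    · omega
    · omega
    · have := h.2.symm.trans h'.2
      simpa using this

theorem col_a (k i j : ℕ) (a b : ZMod k) (s : ℕ) (x y : ZMod k) (hs : s + 1 = i)
    (hy : y = a ∨ y = a + 1) : col k i j a b s x y = some (true, x - s) := by
  unfold col
  rw [if_pos hs, if_pos hy]

theorem col_b0 (k i j : ℕ) (a b : ZMod k) (s : ℕ) (x y : ZMod k) (hs : s = i)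
    (hx : x = a) : col k i j a b s x y = some (false, y) := by
  unfold col
  rw [if_neg (by omega), if_pos hs, if_pos hx]

theorem col_b1 (k i j : ℕ) (a b : ZMod k) (s : ℕ) (x y : ZMod k) (hs : s = i)
    (hx : x ≠ a) (hx2 : x = a + 1) : col k i j a b s x y = some (true, y - (s + 1)) := by
  unfold col
  rw [if_neg (by omega), if_pos hs, if_neg hx, if_pos hx2]

theorem col_c0 (k i j : ℕ) (a b : ZMod k) (s : ℕ) (x y : ZMod k) (hs : i < s ∧ s + 1 < j)
    (hx : y = x) : col k i j a b s x y = some (false, x) := by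
  unfold col
  rw [if_neg (by omega), if_neg (by omega), if_pos hs, if_pos hx]

theorem col_c1 (k i j : ℕ) (a b : ZMod k) (s : ℕ) (x y : ZMod k) (hs : i < s ∧ s + 1 < j)
    (hx : y ≠ x) (hx2 : y = x + 1) : col k i j a b s x y = some (true, x - s) := by
  unfold col
  rw [if_neg (by omega), if_neg (by omega), if_pos hs, if_neg hx, if_pos hx2]

theorem col_d0 (k i j : ℕ) (a b : ZMod k) (s : ℕ) (x y : ZMod k) (hij : i + 2 ≤ j)
    (hs : s + 1 = j) (hx : y = b) : col k i j a b s x y = some (false, x) := by
  unfold col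
  rw [if_neg (by omega), if_neg (by omega), if_neg (by omega), if_pos hs, if_pos hx]

theorem col_d1 (k i j : ℕ) (a b : ZMod k) (s : ℕ) (x y : ZMod k) (hij : i + 2 ≤ j)
    (hs : s + 1 = j) (hx : y ≠ b) (hx2 : y = b + 1) :
    col k i j a b s x y = some (true, x - s) := by
  unfold col
  rw [if_neg (by omega), if_neg (by omega), if_neg (by omega), if_pos hs, if_neg hx, if_pos hx2]

theorem col_e (k i j : ℕ) (a b : ZMod k) (s : ℕ) (x y : ZMod k) (hij : i + 2 ≤ j)
    (hs : s = j) (hx : x = b ∨ x = b + 1) :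
    col k i j a b s x y = some (true, y - (s + 1)) := by
  unfold col
  rw [if_neg (by omega), if_neg (by omega), if_neg (by omega), if_neg (by omega), if_pos hs,
    if_pos hx]

theorem adj_up (m k i j : ℕ) (a b : ZMod k) (c : Bool × ZMod k) (s : ℕ) (hs : s + 1 < m)
    (x y : ZMod k) (h : col k i j a b s x y = some c) :
    (colGraph m k i j a b c).Adj (⟨s, by omega⟩, x) (⟨s + 1, hs⟩, y) :=
  Or.inl ⟨rfl, h⟩

theorem reach_false (m k i j : ℕ) (hij : i + 2 ≤ j) (hj : j < m) (a b : ZMod k) (x : ZMod k) :
    (colGraph m k i j a b (false, x)).Reachable (⟨i, by omega⟩, a) (⟨j, hj⟩, b) := by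
  have h1 := adj_up m k i j a b (false, x) i (by omega) a x (col_b0 _ _ _ _ _ _ _ _ rfl rfl)
  have h2 : ∀ s, i + 1 ≤ s → (hs : s < j) →
      (colGraph m k i j a b (false, x)).Reachable (⟨i + 1, by omega⟩, x) (⟨s, by omega⟩, x) := by
    intro s hs
    induction s, hs using Nat.le_induction with
    | base => intro _; exact SimpleGraph.Reachable.refl _
    | succ s hs ih =>
      intro hsj
      refine (ih (by omega)).trans (SimpleGraph.Adj.reachable ?_)
      exact adj_up m k i j a b (false, x) s (by omega) x x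
        (col_c0 _ _ _ _ _ _ _ _ ⟨by omega, by omega⟩ rfl)
  obtain ⟨j', rfl⟩ : ∃ j', j = j' + 1 := ⟨j - 1, by omega⟩
  have h3 := adj_up m k i (j' + 1) a b (false, x) j' (by omega) x b
    (col_d0 _ _ _ _ _ _ _ _ hij rfl rfl)
  exact h1.reachable.trans ((h2 j' (by omega) (by omega)).trans h3.reachable)

theorem reach_true (m k i j : ℕ) (hk : (1 : ZMod k) ≠ 0) (hi : 1 ≤ i) (hij : i + 2 ≤ j)
    (hj : j + 1 < m) (a b : ZMod k) (c : ZMod k) :
    (colGraph m k i j a b (true, c)).Reachable (⟨i, by omega⟩, a) (⟨j, by omega⟩, b) := by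
  have ha : a + 1 ≠ a := fun h => hk (by simpa using h)
  have hb : b + 1 ≠ b := fun h => hk (by simpa using h)
  obtain ⟨i', rfl⟩ : ∃ i', i = i' + 1 := ⟨i - 1, by omega⟩
  obtain ⟨j', rfl⟩ : ∃ j', j = j' + 1 := ⟨j - 1, by omega⟩
  have e1 := adj_up m k (i' + 1) (j' + 1) a b (true, c) i' (by omega) (c + i') a
    (by rw [col_a _ _ _ _ _ _ _ _ rfl (Or.inl rfl)]; congr 2; ring)
  have e2 := adj_up m k (i' + 1) (j' + 1) a b (true, c) i' (by omega) (c + i') (a + 1)
    (by rw [col_a _ _ _ _ _ _ _ _ rfl (Or.inr rfl)]; congr 2; ring)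
  have e3 := adj_up m k (i' + 1) (j' + 1) a b (true, c) (i' + 1) (by omega) (a + 1)
    (c + ((i' + 2 : ℕ) : ZMod k))
    (by rw [col_b1 _ _ _ _ _ _ _ _ rfl ha rfl]; congr 2; push_cast; ring)
  have e4 : ∀ s, i' + 2 ≤ s → (hs : s < j' + 1) →
      (colGraph m k (i' + 1) (j' + 1) a b (true, c)).Reachable
        (⟨i' + 2, by omega⟩, c + ((i' + 2 : ℕ) : ZMod k)) (⟨s, by omega⟩, c + (s : ZMod k)) := by
    intro s hs
    induction s, hs using Nat.le_induction with
    | base => intro _; exact SimpleGraph.Reachable.refl _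
    | succ s hs ih =>
      intro hsj
      refine (ih (by omega)).trans (SimpleGraph.Adj.reachable ?_)
      have hne : c + ((s + 1 : ℕ) : ZMod k) ≠ c + (s : ZMod k) := by
        intro h
        apply hk
        have h2 := add_left_cancel h
        push_cast at h2
        simpa using h2
      refine adj_up m k (i' + 1) (j' + 1) a b (true, c) s (by omega) _ _ ?_
      rw [col_c1 _ _ _ _ _ _ _ _ ⟨by omega, by omega⟩ hne (by push_cast; ring)]
      congr 2
      ring
  have e5 := adj_up m k (i' + 1) (j' + 1) a b (true, c) j' (by omega) (c + (j' : ZMod k)) (b + 1)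
    (by rw [col_d1 _ _ _ _ _ _ _ _ (by omega) rfl hb rfl]; congr 2; ring)
  have e6 := adj_up m k (i' + 1) (j' + 1) a b (true, c) (j' + 1) (by omega) (b + 1)
    (c + ((j' + 2 : ℕ) : ZMod k))
    (by rw [col_e _ _ _ _ _ _ _ _ (by omega) rfl (Or.inr rfl)]; congr 2; push_cast; ring)
  have e7 := adj_up m k (i' + 1) (j' + 1) a b (true, c) (j' + 1) (by omega) b
    (c + ((j' + 2 : ℕ) : ZMod k))
    (by rw [col_e _ _ _ _ _ _ _ _ (by omega) rfl (Or.inl rfl)]; congr 2; push_cast; ring)
  exact e1.symm.reachable.trans (e2.reachable.trans (e3.reachable.trans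
    ((e4 j' (by omega) (by omega)).trans (e5.reachable.trans
      (e6.reachable.trans e7.symm.reachable)))))

theorem layered_paths (m k : ℕ) [NeZero k] (hk : 2 ≤ k) (i j : ℕ) (hi : 1 ≤ i) (hij : i + 2 ≤ j)
    (hj : j + 1 < m) (hi' : i < m) (hj' : j < m) (a b : ZMod k) :
    HasDisjointPaths (layered m k) (⟨i, hi'⟩, a) (⟨j, hj'⟩, b) (2 * k) := by
  have hcard : Fintype.card (Bool × ZMod k) = 2 * k := by
    rw [Fintype.card_prod, Fintype.card_bool, ZMod.card]
  rw [← hcard]
  refine disjoint_paths_of_family (colGraph m k i j a b) (colGraph_le m k i j a b)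
    (colGraph_disjoint m k i j a b) ?_
  rintro ⟨t, c⟩
  cases t with
  | false => exact reach_false m k i j hij (by omega) a b c
  | true =>
    have h1 : (1 : ZMod k) ≠ 0 := by
      have : Fact (1 < k) := ⟨by omega⟩
      exact one_ne_zero
    exact reach_true m k i j h1 hi hij hj a b c

open Classical in
theorem layered_deg (m k : ℕ) [NeZero k] : ¬ ContainsEdgeConnected (layered m k) (k + 1) := by
  refine degenerate (layered m k) (fun p => (p.1 : ℕ)) k ?_
  rintro ⟨i, x⟩
  have h : ((Finset.univ : Finset (Fin m × ZMod k)).filter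
      (fun w => (layered m k).Adj (i, x) w ∧ (w.1 : ℕ) ≤ (i : ℕ))).card
      ≤ (Finset.univ : Finset (ZMod k)).card := by
    refine Finset.card_le_card_of_injOn (fun w => w.2) (fun _ _ => Finset.mem_coe.mpr (Finset.mem_univ _)) ?_
    rintro ⟨j, y⟩ h1 ⟨j', y'⟩ h2 hyy
    simp only [Finset.coe_filter, Finset.mem_univ, true_and, Set.mem_ofPred_eq] at h1 h2
    have e1 : (j : ℕ) + 1 = i := by
      rcases h1.1 with h | h
      · simp only at h; omega
      · exact h
    have e2 : (j' : ℕ) + 1 = i := by
      rcases h2.1 with h | h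
      · simp only at h; omega
      · exact h
    simp only at hyy
    rw [hyy]
    congr 1
    exact Fin.ext (by omega)
  rw [Finset.card_univ, ZMod.card] at h
  exact h

/-- Indicators of the pairs that are not counted. -/
def bad1 (m : ℕ) (i : Fin m) : ℚ := if (i : ℕ) = 0 ∨ (i : ℕ) = m - 1 then 1 else 0
def bad2 (m : ℕ) (i j : Fin m) : ℚ := if (i : ℕ) ≤ j + 1 ∧ (j : ℕ) ≤ i + 1 then 1 else 0

theorem lam_ge (m k : ℕ) [NeZero k] (hk : 2 ≤ k) (p q : Fin m × ZMod k) (hpq : p ≠ q) :
    2 * (k : ℚ) * (1 - bad1 m p.1 - bad1 m q.1 - bad2 m p.1 q.1) ≤ lam (layered m k) p q := by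
  have hk0 : (0 : ℚ) ≤ 2 * k := by positivity
  have hl0 : (0 : ℚ) ≤ lam (layered m k) p q := by positivity
  have b1 : ∀ i : Fin m, 0 ≤ bad1 m i := fun i => by unfold bad1; split_ifs <;> norm_num
  have b2 : ∀ i j : Fin m, 0 ≤ bad2 m i j := fun i j => by unfold bad2; split_ifs <;> norm_num
  by_cases h : bad1 m p.1 = 1 ∨ bad1 m q.1 = 1 ∨ bad2 m p.1 q.1 = 1
  · have h3 : (1 - bad1 m p.1 - bad1 m q.1 - bad2 m p.1 q.1) ≤ 0 := by
      have := b1 p.1
      have := b1 q.1
      have := b2 p.1 q.1
      rcases h with h | h | h <;> linarith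
    have := mul_nonpos_of_nonneg_of_nonpos hk0 h3
    linarith
  · push Not at h
    obtain ⟨h1, h2, h3⟩ := h
    have e1 : bad1 m p.1 = 0 := by unfold bad1 at h1 ⊢; split_ifs at h1 ⊢ <;> simp_all
    have e2 : bad1 m q.1 = 0 := by unfold bad1 at h2 ⊢; split_ifs at h2 ⊢ <;> simp_all
    have e3 : bad2 m p.1 q.1 = 0 := by unfold bad2 at h3 ⊢; split_ifs at h3 ⊢ <;> simp_all
    rw [e1, e2, e3]
    unfold bad1 at e1 e2
    unfold bad2 at e3
    have c1 : ¬ ((p.1 : ℕ) = 0 ∨ (p.1 : ℕ) = m - 1) := by
      intro hc; rw [if_pos hc] at e1; exact absurd e1 one_ne_zero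
    have c2 : ¬ ((q.1 : ℕ) = 0 ∨ (q.1 : ℕ) = m - 1) := by
      intro hc; rw [if_pos hc] at e2; exact absurd e2 one_ne_zero
    have c3 : ¬ ((p.1 : ℕ) ≤ q.1 + 1 ∧ (q.1 : ℕ) ≤ p.1 + 1) := by
      intro hc; rw [if_pos hc] at e3; exact absurd e3 one_ne_zero
    have hp := p.1.2
    have hq := q.1.2
    have key : 2 * k ≤ lam (layered m k) p q := by
      by_cases hlt : (p.1 : ℕ) + 2 ≤ q.1
      · exact le_lam hpq (layered_paths m k hk p.1 q.1 (by omega) hlt (by omega) hp hq p.2 q.2)
      · rw [lam_comm]
        exact le_lam hpq.symm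
          (layered_paths m k hk q.1 p.1 (by omega) (by omega) (by omega) hq hp q.2 p.2)
    have key2 : ((2 * k : ℕ) : ℚ) ≤ lam (layered m k) p q := by exact_mod_cast key
    push_cast at key2
    linarith

theorem sum_bad1 (m : ℕ) : ∑ i : Fin m, bad1 m i ≤ 2 := by
  unfold bad1
  rw [← Finset.sum_filter, Finset.sum_const, nsmul_eq_mul, mul_one]
  have : ((Finset.univ : Finset (Fin m)).filter (fun i : Fin m => (i : ℕ) = 0 ∨ (i : ℕ) = m - 1)).card ≤ 2 := by
    have h := Finset.card_le_card_of_injOn (s := (Finset.univ : Finset (Fin m)).filter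
      (fun i : Fin m => (i : ℕ) = 0 ∨ (i : ℕ) = m - 1)) (t := ({0, m - 1} : Finset ℕ)) (fun i : Fin m => (i : ℕ))
      (by intro i hi; simpa using hi) (by intro i _ j _ h; exact Fin.ext h)
    exact h.trans (Finset.card_le_two)
  exact_mod_cast this

theorem sum_bad2 (m : ℕ) (i : Fin m) : ∑ j : Fin m, bad2 m i j ≤ 3 := by
  unfold bad2
  rw [← Finset.sum_filter, Finset.sum_const, nsmul_eq_mul, mul_one]
  have : ((Finset.univ : Finset (Fin m)).filter
      (fun j : Fin m => (i : ℕ) ≤ j + 1 ∧ (j : ℕ) ≤ i + 1)).card ≤ 3 := by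
    have h := Finset.card_le_card_of_injOn (s := (Finset.univ : Finset (Fin m)).filter
      (fun j : Fin m => (i : ℕ) ≤ j + 1 ∧ (j : ℕ) ≤ i + 1)) (t := ({(i : ℕ) - 1, (i : ℕ), (i : ℕ) + 1} : Finset ℕ))
      (fun i : Fin m => (i : ℕ))
      (by
        intro j hj
        simp only [Finset.coe_filter, Finset.mem_univ, true_and, Set.mem_ofPred_eq] at hj
        simp only [Finset.coe_insert, Finset.coe_singleton, Set.mem_insert_iff,
          Set.mem_singleton_iff]
        omega)
      (by intro i _ j _ h; exact Fin.ext h)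
    exact h.trans (Finset.card_le_three)
  exact_mod_cast this

open Classical in
theorem layered_avg (m k : ℕ) [NeZero k] (hk : 2 ≤ k) (hm : 14 * k ≤ m) :
    (2 * (k : ℚ) - 1) ≤ avgLam (layered m k) := by
  have hk' : (2 : ℚ) ≤ k := by exact_mod_cast hk
  have hm' : 14 * (k : ℚ) ≤ m := by exact_mod_cast hm
  have hcard : Fintype.card (Fin m × ZMod k) = m * k := by
    rw [Fintype.card_prod, Fintype.card_fin, ZMod.card]
  unfold avgLam
  rw [hcard]
  push_cast
  have hmk : (0 : ℚ) < (m : ℚ) * k - 1 := by nlinarith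
  have hpos : (0 : ℚ) < (m : ℚ) * k * ((m : ℚ) * k - 1) / 2 := by
    have : (0 : ℚ) < (m : ℚ) * k := by nlinarith
    positivity
  rw [le_div_iff₀ hpos]
  have hsum := sum_offDiag (layered m k)
  have h1 : (∑ p ∈ (Finset.univ : Finset (Fin m × ZMod k)).offDiag,
      2 * (k : ℚ) * (1 - bad1 m p.1.1 - bad1 m p.2.1 - bad2 m p.1.1 p.2.1))
      ≤ ∑ p ∈ (Finset.univ : Finset (Fin m × ZMod k)).offDiag,
        (lam (layered m k) p.1 p.2 : ℚ) := by
    refine Finset.sum_le_sum fun p hp => ?_
    simp only [Finset.mem_offDiag, Finset.mem_univ, true_and] at hp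
    exact lam_ge m k hk p.1 p.2 hp
  have h2 : (∑ p : (Fin m × ZMod k) × (Fin m × ZMod k),
      2 * (k : ℚ) * (1 - bad1 m p.1.1 - bad1 m p.2.1 - bad2 m p.1.1 p.2.1))
      ≤ ∑ p ∈ (Finset.univ : Finset (Fin m × ZMod k)).offDiag,
      2 * (k : ℚ) * (1 - bad1 m p.1.1 - bad1 m p.2.1 - bad2 m p.1.1 p.2.1) := by
    rw [← Finset.sum_sdiff (Finset.subset_univ (Finset.univ : Finset (Fin m × ZMod k)).offDiag)]
    have : ∑ p ∈ Finset.univ \ (Finset.univ : Finset (Fin m × ZMod k)).offDiag,
        2 * (k : ℚ) * (1 - bad1 m p.1.1 - bad1 m p.2.1 - bad2 m p.1.1 p.2.1) ≤ 0 := by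
      refine Finset.sum_nonpos fun p hp => ?_
      simp only [Finset.mem_sdiff, Finset.mem_offDiag, Finset.mem_univ, true_and, not_not] at hp
      refine mul_nonpos_of_nonneg_of_nonpos (by positivity) ?_
      have e : bad2 m p.1.1 p.2.1 = 1 := by
        unfold bad2
        rw [hp]
        simp
      have : 0 ≤ bad1 m p.1.1 := by unfold bad1; split_ifs <;> norm_num
      have : 0 ≤ bad1 m p.2.1 := by unfold bad1; split_ifs <;> norm_num
      linarith
    linarith
  have h3 : (∑ p : (Fin m × ZMod k) × (Fin m × ZMod k),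
      2 * (k : ℚ) * (1 - bad1 m p.1.1 - bad1 m p.2.1 - bad2 m p.1.1 p.2.1))
      ≥ 2 * k * ((m * k) ^ 2 - 7 * k * (m * k)) := by
    rw [← Finset.mul_sum]
    refine mul_le_mul_of_nonneg_left ?_ (by positivity)
    rw [Finset.sum_sub_distrib, Finset.sum_sub_distrib, Finset.sum_sub_distrib]
    have s0 : ∑ p : (Fin m × ZMod k) × (Fin m × ZMod k), (1 : ℚ) = (m * k) ^ 2 := by
      simp [Fintype.card_prod, ZMod.card]
      ring
    have s1 : ∑ p : (Fin m × ZMod k) × (Fin m × ZMod k), bad1 m p.1.1 ≤ 2 * k * (m * k) := by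
      rw [Fintype.sum_prod_type, Fintype.sum_prod_type]
      simp only [Finset.sum_const, Finset.card_univ, Fintype.card_prod, Fintype.card_fin,
        ZMod.card, nsmul_eq_mul]
      rw [← Finset.mul_sum, ← Finset.mul_sum]
      push_cast
      have := sum_bad1 m
      have h0 : (0 : ℚ) ≤ (k : ℚ) * ((m : ℚ) * k) := by positivity
      nlinarith
    have s2 : ∑ p : (Fin m × ZMod k) × (Fin m × ZMod k), bad1 m p.2.1 ≤ 2 * k * (m * k) := by
      rw [Fintype.sum_prod_type]
      simp only [Finset.sum_const, Finset.card_univ, Fintype.card_prod, Fintype.card_fin,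
        ZMod.card, nsmul_eq_mul]
      rw [Fintype.sum_prod_type]
      simp only [Finset.sum_const, Finset.card_univ,
        ZMod.card, nsmul_eq_mul]
      rw [← Finset.mul_sum]
      push_cast
      have := sum_bad1 m
      have h0 : (0 : ℚ) ≤ (k : ℚ) * ((m : ℚ) * k) := by positivity
      nlinarith
    have s3 : ∑ p : (Fin m × ZMod k) × (Fin m × ZMod k), bad2 m p.1.1 p.2.1
        ≤ 3 * k * (m * k) := by
      rw [Fintype.sum_prod_type]
      have : ∀ p : Fin m × ZMod k, ∑ q : Fin m × ZMod k, bad2 m p.1 q.1 ≤ 3 * k := by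
        intro p
        rw [Fintype.sum_prod_type]
        simp only [Finset.sum_const, Finset.card_univ, ZMod.card, nsmul_eq_mul]
        rw [← Finset.mul_sum]
        have := sum_bad2 m p.1
        have h0 : (0 : ℚ) ≤ (k : ℚ) := by positivity
        nlinarith
      refine (Finset.sum_le_sum fun p _ => this p).trans ?_
      simp only [Finset.sum_const, Finset.card_univ, Fintype.card_prod, Fintype.card_fin,
        ZMod.card, nsmul_eq_mul]
      push_cast
      linarith
    rw [s0]
    linarith
  have h4 : (2 * (k : ℚ) - 1) * (m * k * (m * k - 1)) ≤ 2 * k * ((m * k) ^ 2 - 7 * k * (m * k)) := by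
    have hmk0 : (0 : ℚ) ≤ (m : ℚ) * k := by positivity
    have : (2 * (k : ℚ) - 1) * (m * k - 1) ≤ 2 * k * (m * k - 7 * k) := by
      nlinarith
    calc (2 * (k : ℚ) - 1) * (m * k * (m * k - 1)) = (m * k) * ((2 * (k : ℚ) - 1) * (m * k - 1)) := by
          ring
      _ ≤ (m * k) * (2 * k * (m * k - 7 * k)) := mul_le_mul_of_nonneg_left this hmk0
      _ = _ := by ring
  linarith

/-- A single edge. -/
theorem edge_avg : (1 : ℚ) ≤ avgLam (⊤ : SimpleGraph Bool) := by
  classical
  unfold avgLam
  have hsum := sum_offDiag (⊤ : SimpleGraph Bool)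
  have h1 : ∀ a b : Bool, a ≠ b → 1 ≤ lam (⊤ : SimpleGraph Bool) a b := by
    intro a b hab
    refine le_lam hab ⟨fun _ => SimpleGraph.Path.singleton (by simpa using hab), ?_⟩
    intro i j hij
    exact absurd (Subsingleton.elim i j) hij
  have h2 : (2 : ℚ) ≤ ∑ p ∈ (Finset.univ : Finset Bool).offDiag,
      (lam (⊤ : SimpleGraph Bool) p.1 p.2 : ℚ) := by
    have : ∑ p ∈ (Finset.univ : Finset Bool).offDiag, (1 : ℚ) ≤
        ∑ p ∈ (Finset.univ : Finset Bool).offDiag, (lam (⊤ : SimpleGraph Bool) p.1 p.2 : ℚ) := by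
      refine Finset.sum_le_sum fun p hp => ?_
      simp only [Finset.mem_offDiag, Finset.mem_univ, true_and] at hp
      exact_mod_cast h1 p.1 p.2 hp
    refine le_trans ?_ this
    simp [Finset.offDiag_card]
  rw [hsum] at h2
  simp only [Fintype.card_bool]
  push_cast
  rw [le_div_iff₀ (by norm_num)]
  linarith

theorem edge_deg : ¬ ContainsEdgeConnected (⊤ : SimpleGraph Bool) 2 := by
  classical
  refine degenerate (⊤ : SimpleGraph Bool) (fun b => if b then 1 else 0) 1 ?_
  intro v
  refine (Finset.card_le_card (t := {!v}) ?_).trans (by simp)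
  intro w hw
  simp only [Finset.mem_filter, Finset.mem_univ, true_and, SimpleGraph.top_adj] at hw
  simp only [Finset.mem_singleton]
  cases v <;> cases w <;> simp_all

theorem ContainsEdgeConnected.anti {V : Type} {G : SimpleGraph V} {s t : ℕ} (hst : s ≤ t)
    (h : ContainsEdgeConnected G t) : ContainsEdgeConnected G s := by
  obtain ⟨H, hnt, hH⟩ := h
  exact ⟨H, hnt, fun u v => (hH u v).anti hst⟩

/-- For every `l ≥ 1`, the largest `t` such that every finite graph with average edge-connectivity
at least `l` contains a `t`-edge-connected subgraph is `⌊l/2⌋ + 1`. -/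
theorem result (l : ℕ) (hl : 1 ≤ l) :
    IsGreatest {t : ℕ | ∀ (V : Type) [Fintype V] (G : SimpleGraph V), 2 ≤ Fintype.card V →
      (l : ℚ) ≤ avgLam G → ContainsEdgeConnected G t} (l / 2 + 1) := by
  constructor
  · intro V _ G hV h
    exact lower l hl G hV h
  · intro t ht
    by_contra hlt
    have hlt' : l / 2 + 2 ≤ t := by omega
    simp only [Set.mem_ofPred_eq] at ht
    by_cases h1 : l / 2 + 1 = 1
    · have := ht Bool ⊤ (by simp) (by
        refine le_trans ?_ edge_avg
        have : l ≤ 1 := by omega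
        exact_mod_cast this)
      exact edge_deg (this.anti (by omega))
    · set k := l / 2 + 1 with hk
      have hk2 : 2 ≤ k := by omega
      have : NeZero k := ⟨by omega⟩
      have h2 := ht (Fin (14 * k) × ZMod k) (layered (14 * k) k)
        (by
          rw [Fintype.card_prod, Fintype.card_fin, ZMod.card]
          nlinarith)
        (by
          refine le_trans ?_ (layered_avg (14 * k) k hk2 le_rfl)
          have : l + 1 ≤ 2 * k := by omega
          have h3 : ((l + 1 : ℕ) : ℚ) ≤ ((2 * k : ℕ) : ℚ) := by exact_mod_cast this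
          push_cast at h3
          linarith)
      exact layered_deg (14 * k) k (h2.anti (by omega))

end Pool.Agent.Results.MP_3eb4be_co.AvgEdgeConn
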